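import Mathlib
import Pool.Agent.H66.CommSub2

set_option autoImplicit false

namespace Pool.Agent.Results.MP_16b0c2_al.Contained

universe u

/-- In a free group of rank at least two, if `R` is normal and `[R,R] ≤ [S,S]` then `R ≤ S`. -/
theorem result (X : Type u) [Nontrivial X] (R S : Subgroup (FreeGroup X)) [R.Normal]
    (h : ⁅R, R⁆ ≤ ⁅S, S⁆) : R ≤ S :=
  Pool.Agent.H66.CommSub.main R S h

end Pool.Agent.Results.MP_16b0c2_al.Contained
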